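import Pool.Agent.Y739.EX.Shift

/-!
# Non-exceptional pairs from graphs of one order type

If a graph of one order type (for example a shift graph) contains `G₂` but not `G₁`, then the pair
`(G₁, G₂)` is not exceptional. In particular no pair of odd cycles `(C_{2a+1}, C_{2b+1})` with
`a ≤ b` is exceptional.
-/

set_option autoImplicit false

universe u

namespace Pool.Agent.Results.MP_48d4bc_co.OneTypeGraphs

open Pool.Agent.H709Exc Pool.Agent.Y739.EX SimpleGraph

/-- `(1)` If some graph of one order type over `ℕ` contains `G₂` and does not contain `G₁`, then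
some `G₁`-free graph has a monochromatic copy of `G₂` under every edge colouring with countably
many colours; so `(G₁, G₂)` is not exceptional. `(2)` This applies if `G₁` contains an odd cycle
`C_{2a+1}` and `G₂` is contained in the shift graph on `b`-tuples, where `a < b`. `(3)` No pair
`(C_{2a+1}, C_{2b+1})` with `1 ≤ a ≤ b` is exceptional; for `a < b` even property (2) of the
definition of exceptional pairs fails. -/
theorem result :
    (∀ (k l : ℕ) (G₁ : SimpleGraph (Fin k)) (G₂ : SimpleGraph (Fin l)),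
      (∀ (r n : ℕ) (p q : Fin r → Fin n), G₂.IsContained (typeGraph p q ℕ) →
        ¬ G₁.IsContained (typeGraph p q ℕ) →
          ¬ CountablyColourable.{u} G₁ G₂ ∧ ¬ Exceptional.{u} G₁ G₂) ∧
      (∀ a b : ℕ, 1 ≤ a → a < b → (cycleGraph (2 * a + 1)).IsContained G₁ →
        G₂.IsContained (shiftGraph b ℕ) →
          ¬ CountablyColourable.{u} G₁ G₂ ∧ ¬ Exceptional.{u} G₁ G₂)) ∧
    (∀ a b : ℕ, 1 ≤ a → a ≤ b →
      (a < b → ¬ CountablyColourable.{u} (cycleGraph (2 * a + 1)) (cycleGraph (2 * b + 1))) ∧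
      ¬ Exceptional.{u} (cycleGraph (2 * a + 1)) (cycleGraph (2 * b + 1))) := by
  have h1 : ∀ (k l : ℕ) (G₁ : SimpleGraph (Fin k)) (G₂ : SimpleGraph (Fin l))
      (r n : ℕ) (p q : Fin r → Fin n), G₂.IsContained (typeGraph p q ℕ) →
        ¬ G₁.IsContained (typeGraph p q ℕ) →
          ¬ CountablyColourable.{u} G₁ G₂ ∧ ¬ Exceptional.{u} G₁ G₂ := by
    intro k l G₁ G₂ r n p q hG₂ hG₁
    have h := not_countablyColourable.{u} p q G₁ G₂ hG₂ hG₁
    exact ⟨h, fun h' => h h'.2⟩
  have h2 : ∀ (k l : ℕ) (G₁ : SimpleGraph (Fin k)) (G₂ : SimpleGraph (Fin l)) (a b : ℕ),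
      1 ≤ a → a < b → (cycleGraph (2 * a + 1)).IsContained G₁ →
        G₂.IsContained (shiftGraph b ℕ) →
          ¬ CountablyColourable.{u} G₁ G₂ ∧ ¬ Exceptional.{u} G₁ G₂ := by
    intro k l G₁ G₂ a b ha hab hG₁ hG₂
    exact h1 k l G₁ G₂ b (b + 1) _ _ hG₂ (fun h => cycle_not_contained ha hab (hG₁.trans h))
  refine ⟨fun k l G₁ G₂ => ⟨h1 k l G₁ G₂, h2 k l G₁ G₂⟩, ?_⟩
  intro a b ha hab
  have h3 : a < b → ¬ CountablyColourable.{u} (cycleGraph (2 * a + 1)) (cycleGraph (2 * b + 1)) ∧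
      ¬ Exceptional.{u} (cycleGraph (2 * a + 1)) (cycleGraph (2 * b + 1)) := fun h =>
    h2 _ _ _ _ a b ha h (IsContained.refl _) (cycle_contained (ha.trans hab))
  refine ⟨fun h => (h3 h).1, ?_⟩
  rcases hab.lt_or_eq with h | h
  · exact (h3 h).2
  · subst h
    rintro ⟨hf, -⟩
    obtain ⟨V, H, hH, hc⟩ := hf 1 le_rfl
    obtain ⟨i, ⟨f⟩⟩ := hc (fun _ => 0)
    apply hH
    refine ⟨⟨⟨fun x => f x, ?_⟩, f.injective⟩⟩
    intro x y hxy
    exact (f.toHom.map_adj hxy).1

end Pool.Agent.Results.MP_48d4bc_co.OneTypeGraphs
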